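import Pool.Agent.H68.GHY.Targets2
import Mathlib.LinearAlgebra.Matrix.Gershgorin

/-!
# Board ghy, row DBK: doubling for the neighbourhoods of the orthogonal group

The set `‖zᵀ z - 1‖ ≤ 4 d` is covered by boundedly many right translates of the set
`‖zᵀ z - 1‖ ≤ d / 4`.
-/

set_option autoImplicit false

namespace Pool.Agent.H46.GHY

open MeasureTheory Pool.Agent.H34.GM Pool.Agent.H34.GZ Pool.Agent.H34.GU Pool.Agent.H34.GA
open Pool.Agent.H68.GHY

/-- the set -/
def BB (m : ℕ) (r : ℝ) : Set (V m) :=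
  {z | ∑ i, ∑ j, (((mt z).transpose * mt z - 1) i j) ^ 2 ≤ r ^ 2}

lemma measurableSet_BB (m : ℕ) (r : ℝ) : MeasurableSet (BB m r) := by
  apply IsClosed.measurableSet
  apply isClosed_le _ continuous_const
  have h1 : Continuous fun z : V m => (mt z).transpose * mt z - 1 := by
    have h2 : Continuous fun z : V m => mt z := continuous_id
    exact (h2.matrix_transpose.mul h2).sub continuous_const
  apply continuous_finsetSum
  intro i _
  apply continuous_finsetSum
  intro j _
  exact (h1.matrix_elem i j).pow 2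

lemma hm_translate {m : ℕ} (hHAR : T_HAR) (hm1 : 1 ≤ m) (a : Mat m) (ha : a.det ≠ 0)
    (S : Set (V m)) (hS : MeasurableSet S) :
    hm m {z | (fun i j => (mt z * a) i j) ∈ S} = hm m S := by
  have h1 := ((hHAR m hm1).1 a ha (S.indicator 1) (measurable_one.indicator hS)).2
  rw [lintegral_indicator_one hS] at h1
  rw [← h1, ← lintegral_indicator_one]
  · rfl
  · have h2 : Measurable fun z : V m => (fun i j => (mt z * a) i j : V m) := by
      apply Continuous.measurable
      have h3 : Continuous fun z : V m => mt z * a := by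
        have h4 : Continuous fun z : V m => mt z := continuous_id
        exact h4.mul continuous_const
      exact h3
    exact h2 hS

/-- the right translations -/
noncomputable def ww (m : ℕ) (h : ℝ) (n : Fin m → Fin m → ℤ) : Mat m :=
  1 - Matrix.of fun i j => h * n i j / 2

lemma ww_det {m : ℕ} (hm1 : 1 ≤ m) {d h : ℝ} {n : Fin m → Fin m → ℤ}
    (hd : 400 * (m : ℝ) ^ 2 * d ≤ 1) (hd0 : 0 < d)
    (hn : ∀ i j, |h * n i j| ≤ 4 * d) : (ww m h n).det ≠ 0 := by
  have hmR : (1 : ℝ) ≤ m := by exact_mod_cast hm1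
  apply det_ne_zero_of_sum_row_lt_diag
  intro k
  have h1 : ∀ j ∈ Finset.univ.erase k, ‖ww m h n k j‖ ≤ 2 * d := by
    intro j hj
    have hjk : k ≠ j := (Finset.ne_of_mem_erase hj).symm
    rw [ww, Matrix.sub_apply, Matrix.one_apply_ne hjk, Matrix.of_apply, zero_sub, norm_neg,
      Real.norm_eq_abs, abs_div, abs_two]
    linarith [hn k j]
  have h2 : 1 - 2 * d ≤ ‖ww m h n k k‖ := by
    rw [ww, Matrix.sub_apply, Matrix.one_apply_eq, Matrix.of_apply, Real.norm_eq_abs]
    have h3 := hn k k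
    have h4 := abs_le.1 h3
    have h5 : 1 - h * n k k / 2 ≤ |1 - h * n k k / 2| := le_abs_self _
    linarith [h4.2]
  calc ∑ j ∈ Finset.univ.erase k, ‖ww m h n k j‖ ≤ ∑ _j ∈ Finset.univ.erase k, 2 * d :=
        Finset.sum_le_sum h1
    _ = ((Finset.univ.erase k).card : ℝ) * (2 * d) := by rw [Finset.sum_const, nsmul_eq_mul]
    _ ≤ (m : ℝ) * (2 * d) := by
        apply mul_le_mul_of_nonneg_right _ (by linarith)
        have h3 : (Finset.univ.erase k).card ≤ m := by
          calc (Finset.univ.erase k).card ≤ (Finset.univ : Finset (Fin m)).card :=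
                Finset.card_le_card (Finset.erase_subset _ _)
            _ = m := by rw [Finset.card_univ, Fintype.card_fin]
        exact_mod_cast h3
    _ < 1 - 2 * d := by nlinarith
    _ ≤ _ := h2

lemma mul_entry {m : ℕ} {A B : Mat m} {x y : ℝ} (hx : 0 ≤ x) (hA : ∀ i j, |A i j| ≤ x)
    (hB : ∀ i j, |B i j| ≤ y) (i j : Fin m) : |(A * B) i j| ≤ m * (x * y) := by
  rw [Matrix.mul_apply]
  calc |∑ k, A i k * B k j| ≤ ∑ k, |A i k * B k j| := Finset.abs_sum_le_sum_abs _ _
    _ ≤ ∑ _k : Fin m, x * y := by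
        apply Finset.sum_le_sum
        intro k _
        rw [abs_mul]
        exact mul_le_mul (hA i k) (hB k j) (abs_nonneg _) hx
    _ = _ := by rw [Finset.sum_const, Finset.card_univ, Fintype.card_fin, nsmul_eq_mul]

lemma key {m : ℕ} (hm1 : 1 ≤ m) {d : ℝ} (hd : 400 * (m : ℝ) ^ 2 * d ≤ 1) (hd0 : 0 < d)
    {z : V m} (hz : z ∈ BB m (4 * d)) : ∃ n : Fin m → Fin m → ℤ,
    (∀ i j, -(32 * (m : ℤ)) ≤ n i j ∧ n i j ≤ 32 * m) ∧
      (fun i j => (mt z * ww m (d / (8 * m)) n) i j) ∈ BB m (d / 4) := by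
  have hmR : (1 : ℝ) ≤ m := by exact_mod_cast hm1
  have hm0 : (0 : ℝ) < m := by linarith
  obtain ⟨h, hh⟩ : ∃ h : ℝ, h = d / (8 * m) := ⟨_, rfl⟩
  have hh0 : 0 < h := by rw [hh]; positivity
  have hmh : 8 * (m : ℝ) * h = d := by rw [hh]; field_simp
  obtain ⟨E, hE⟩ : ∃ E : Mat m, E = (mt z).transpose * mt z - 1 := ⟨_, rfl⟩
  have hEs : E.transpose = E := by
    rw [hE, Matrix.transpose_sub, Matrix.transpose_mul, Matrix.transpose_transpose,
      Matrix.transpose_one]
  have hEb : ∀ i j, |E i j| ≤ 4 * d := by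
    intro i j
    have h1 : (E i j) ^ 2 ≤ (4 * d) ^ 2 := by
      refine le_trans ?_ hz
      rw [← hE]
      calc (E i j) ^ 2 ≤ ∑ j, (E i j) ^ 2 :=
            Finset.single_le_sum (f := fun j => (E i j) ^ 2) (fun j _ => sq_nonneg _)
              (Finset.mem_univ j)
        _ ≤ _ := Finset.single_le_sum (f := fun i => ∑ j, (E i j) ^ 2)
            (fun i _ => Finset.sum_nonneg fun j _ => sq_nonneg _) (Finset.mem_univ i)
    exact abs_le_of_sq_le_sq h1 (by linarith)
  obtain ⟨n, hn⟩ : ∃ n : Fin m → Fin m → ℤ, n = fun i j => ⌊E i j / h⌋ := ⟨_, rfl⟩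
  have hn1 : ∀ i j, -(32 * (m : ℤ)) ≤ n i j ∧ n i j ≤ 32 * m := by
    intro i j
    have h1 := abs_le.1 (hEb i j)
    rw [hn]
    constructor
    · apply Int.le_floor.2
      push_cast
      rw [le_div_iff₀ hh0]
      nlinarith [h1.1]
    · apply Int.floor_le_iff.2
      push_cast
      rw [div_lt_iff₀ hh0]
      nlinarith [h1.2]
  refine ⟨n, hn1, ?_⟩
  rw [← hh]
  obtain ⟨G, hG⟩ : ∃ G : Mat m, G = Matrix.of fun i j => h * n i j := ⟨_, rfl⟩
  have hGs : G.transpose = G := by
    ext i j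
    rw [hG, Matrix.transpose_apply, Matrix.of_apply, Matrix.of_apply, hn]
    have : E j i = E i j := by
      conv_rhs => rw [← hEs]
      rfl
    simp only [this]
  have hGb : ∀ i j, |G i j| ≤ 4 * d := by
    intro i j
    rw [hG, Matrix.of_apply, abs_mul, abs_of_pos hh0]
    have h1 : |((n i j : ℤ) : ℝ)| ≤ 32 * m := by
      have := hn1 i j
      rw [abs_le]
      constructor
      · have h2 : ((-(32 * (m : ℤ)) : ℤ) : ℝ) ≤ (n i j : ℝ) := by exact_mod_cast this.1
        push_cast at h2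
        exact h2
      · have h2 : ((n i j : ℤ) : ℝ) ≤ ((32 * (m : ℤ) : ℤ) : ℝ) := by exact_mod_cast this.2
        push_cast at h2
        exact h2
    calc h * |((n i j : ℤ) : ℝ)| ≤ h * (32 * m) := mul_le_mul_of_nonneg_left h1 hh0.le
      _ = 4 * (8 * m * h) := by ring
      _ = 4 * d := by rw [hmh]
  have hEG : ∀ i j, |(E - G) i j| ≤ h := by
    intro i j
    rw [Matrix.sub_apply, hG, Matrix.of_apply, hn]
    have h1 := Int.floor_le (E i j / h)
    have h2 := Int.lt_floor_add_one (E i j / h)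
    rw [le_div_iff₀ hh0] at h1
    rw [div_lt_iff₀ hh0] at h2
    rw [abs_le]
    constructor
    · nlinarith
    · nlinarith
  have hw : ww m h n = 1 - (1 / 2 : ℝ) • G := by
    rw [ww, hG]
    congr 1
    ext i j
    simp only [Matrix.of_apply, Matrix.smul_apply, smul_eq_mul]
    ring
  have hfin : (mt z * ww m h n).transpose * (mt z * ww m h n) - 1 =
      (E - G) - (1 / 2 : ℝ) • (E * G) - (1 / 2 : ℝ) • (G * E) + (1 / 4 : ℝ) • (G * G) +
        (1 / 4 : ℝ) • (G * E * G) := by
    have h1 : (mt z).transpose * mt z = 1 + E := by rw [hE]; abel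
    have h2 : (ww m h n).transpose = ww m h n := by
      rw [hw, Matrix.transpose_sub, Matrix.transpose_smul, hGs, Matrix.transpose_one]
    rw [Matrix.transpose_mul, h2]
    calc ww m h n * (mt z).transpose * (mt z * ww m h n) - 1
        = ww m h n * ((mt z).transpose * mt z) * ww m h n - 1 := by
          simp only [Matrix.mul_assoc]
      _ = _ := by
          rw [h1, hw]
          simp only [Matrix.mul_add, Matrix.add_mul, Matrix.mul_sub, Matrix.sub_mul,
            Matrix.mul_one, Matrix.one_mul, Matrix.smul_mul, Matrix.mul_smul, smul_sub, smul_add,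
            smul_smul]
          module
  have hent : ∀ i j, |((mt z * ww m h n).transpose * (mt z * ww m h n) - 1) i j| ≤
      d / (4 * m) := by
    intro i j
    rw [hfin]
    simp only [Matrix.add_apply, Matrix.sub_apply, Matrix.smul_apply, smul_eq_mul]
    have a1 := abs_le.1 (hEG i j)
    rw [Matrix.sub_apply] at a1
    have a2 := abs_le.1 (mul_entry (by linarith) hEb hGb i j)
    have a3 := abs_le.1 (mul_entry (by linarith) hGb hEb i j)
    have a4 := abs_le.1 (mul_entry (by linarith) hGb hGb i j)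
    have a5 := abs_le.1 (mul_entry (x := m * (4 * d * (4 * d))) (by positivity)
      (mul_entry (by linarith) hGb hEb) hGb i j)
    have a6 : 20 * m * d ^ 2 + 16 * m ^ 2 * d ^ 3 ≤ h := by
      have b1 : 400 * (m : ℝ) ^ 2 * d * h ≤ h := by nlinarith
      have b2 : (m : ℝ) * d ^ 2 ≤ m ^ 2 * d ^ 2 := by nlinarith [sq_nonneg d]
      have b3 : (m : ℝ) ^ 2 * d * h = m * d ^ 2 / 8 := by
        rw [hh]; field_simp
      have b4 : (m : ℝ) ^ 2 * d ^ 3 ≤ m * d ^ 2 / 400 := by
        have : (m : ℝ) * d ≤ 1 / 400 := by nlinarith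
        nlinarith [mul_pos hm0 (pow_pos hd0 2)]
      nlinarith [mul_pos hm0 (pow_pos hd0 2)]
    have a7 : d / (4 * m) = 2 * h := by rw [hh]; field_simp; ring
    rw [a7, abs_le]
    constructor <;> linarith [a1.1, a1.2, a2.1, a2.2, a3.1, a3.2, a4.1, a4.2, a5.1, a5.2]
  obtain ⟨Q, hQ⟩ : ∃ Q : Mat m, Q = (mt z * ww m h n).transpose * (mt z * ww m h n) - 1 :=
    ⟨_, rfl⟩
  rw [← hQ] at hent
  have hgoal : ∑ i, ∑ j, (Q i j) ^ 2 ≤ (d / 4) ^ 2 := by
    calc ∑ i, ∑ j, (Q i j) ^ 2 ≤ ∑ _i : Fin m, ∑ _j : Fin m, (d / (4 * m)) ^ 2 := by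
          apply Finset.sum_le_sum
          intro i _
          apply Finset.sum_le_sum
          intro j _
          exact sq_le_sq' (abs_le.1 (hent i j)).1 (abs_le.1 (hent i j)).2
      _ = (d / 4) ^ 2 := by
          simp only [Finset.sum_const, Finset.card_univ, Fintype.card_fin, nsmul_eq_mul]
          field_simp
  rw [hQ] at hgoal
  exact hgoal

theorem pf_DBK : T_HAR → T_DBK := by
  intro hHAR m hm1
  have hmR : (1 : ℝ) ≤ m := by exact_mod_cast hm1
  obtain ⟨J, hJ⟩ : ∃ J : Finset (Fin m → Fin m → ℤ), J = Fintype.piFinset (fun _ =>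
    Fintype.piFinset fun _ => Finset.Icc (-(32 * (m : ℤ))) (32 * m)) := ⟨_, rfl⟩
  refine ⟨J.card + 400 * (m : ℝ) ^ 2, by nlinarith [Nat.cast_nonneg (α := ℝ) J.card], ?_⟩
  intro d hd0 hCd
  have hd : 400 * (m : ℝ) ^ 2 * d ≤ 1 := by nlinarith [Nat.cast_nonneg (α := ℝ) J.card]
  have hm0 : (0 : ℝ) < m := by linarith
  change hm m (BB m (4 * d)) ≤ _ * hm m (BB m (d / 4))
  have hsub : BB m (4 * d) ⊆ ⋃ n ∈ J,
      {z | (fun i j => (mt z * ww m (d / (8 * m)) n) i j) ∈ BB m (d / 4)} := by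
    intro z hz
    obtain ⟨n, hn1, hn2⟩ := key hm1 hd hd0 hz
    simp only [Set.mem_iUnion]
    refine ⟨n, ?_, hn2⟩
    rw [hJ, Fintype.mem_piFinset]
    intro i
    rw [Fintype.mem_piFinset]
    intro j
    rw [Finset.mem_Icc]
    exact hn1 i j
  calc hm m (BB m (4 * d)) ≤ hm m (⋃ n ∈ J,
        {z | (fun i j => (mt z * ww m (d / (8 * m)) n) i j) ∈ BB m (d / 4)}) :=
        measure_mono hsub
    _ ≤ ∑ n ∈ J, hm m {z | (fun i j => (mt z * ww m (d / (8 * m)) n) i j) ∈ BB m (d / 4)} :=
        measure_biUnion_finset_le _ _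
    _ = ∑ _n ∈ J, hm m (BB m (d / 4)) := by
        apply Finset.sum_congr rfl
        intro n hn
        apply hm_translate hHAR hm1 _ _ _ (measurableSet_BB _ _)
        apply ww_det hm1 hd hd0
        intro i j
        rw [hJ, Fintype.mem_piFinset] at hn
        have h1 := hn i
        rw [Fintype.mem_piFinset] at h1
        have h2 := Finset.mem_Icc.1 (h1 j)
        have h3 : |((n i j : ℤ) : ℝ)| ≤ 32 * m := by
          rw [abs_le]
          constructor
          · have h2 : ((-(32 * (m : ℤ)) : ℤ) : ℝ) ≤ (n i j : ℝ) := by exact_mod_cast h2.1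
            push_cast at h2
            exact h2
          · have h2 : ((n i j : ℤ) : ℝ) ≤ ((32 * (m : ℤ) : ℤ) : ℝ) := by exact_mod_cast h2.2
            push_cast at h2
            exact h2
        rw [abs_mul, abs_of_pos (by positivity : (0 : ℝ) < d / (8 * m))]
        calc d / (8 * m) * |((n i j : ℤ) : ℝ)| ≤ d / (8 * m) * (32 * m) :=
              mul_le_mul_of_nonneg_left h3 (by positivity)
          _ = 4 * d := by field_simp; norm_num
    _ = (J.card : ENNReal) * hm m (BB m (d / 4)) := by rw [Finset.sum_const, nsmul_eq_mul]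
    _ ≤ _ := by
        apply mul_le_mul_left
        rw [← ENNReal.ofReal_natCast]
        apply ENNReal.ofReal_le_ofReal
        nlinarith

end Pool.Agent.H46.GHY
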